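import Pool.Agent.helper37.ND.Spec
import Pool.Agent.helper65.NA.NEG
import Pool.Agent.helper70.ND.GS4
import Pool.Agent.helper59.FI.Base

/-!
# Row nd:GQQ (MP_baa4d7_al): the conditions for `nz E`
-/

set_option autoImplicit false

namespace Pool.Agent.ND

open Pool.Agent.helper58.DC Pool.Agent.DI Pool.Agent.GR Pool.Agent.OB Pool.Agent.DR Pool.Agent.FI Pool.Agent.FI3 Pool.Agent.FI4 Pool.Agent.FI4I Pool.Agent.LE Pool.Agent.L5 Pool.Agent.NAB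

open Classical in
/-- a decomposition formula -/
theorem GQQ_dec (hQRS : QRS_stmt) {G : Type} [Group G] [Finite G] {C C₁ N₁ : Subgroup G} (h1 : C ≤ C₁) (h2 : C₁ ≤ N₁) {η : G → ℂ}
    (hη : η ∈ IrrOn N₁) {θ θ' ξ ξ' : G → ℂ} {ε : ℂ} (hξ : ξ ∈ IrrOn C₁) (hξ' : ξ' ∈ IrrOn C₁)
    (h : ∀ ψ ∈ IrrOn C₁, mt C ψ θ - mt C ψ θ' = ε * ((if ψ = ξ then 1 else 0) - (if ψ = ξ' then 1 else 0))) :
    mt C η θ - mt C η θ' = ε * (mt C₁ η ξ - mt C₁ η ξ') := by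
  have hfin := IrrOn_fin (G := G) C₁
  have hd : ∀ κ : G → ℂ, mt C η κ = ∑ᶠ ψ ∈ IrrOn C₁, mt C₁ η ψ * mt C ψ κ := by
    intro κ
    unfold Pool.Agent.FI.mt
    rw [finsum_mem_eq_finite_toFinset_sum _ (Set.toFinite (C : Set G)), finsum_mem_eq_finite_toFinset_sum _ hfin]
    have e1 : ∑ x ∈ (Set.toFinite (C : Set G)).toFinset, η x * κ x⁻¹ =
        ∑ x ∈ (Set.toFinite (C : Set G)).toFinset, ∑ ψ ∈ hfin.toFinset, mt C₁ η ψ * ψ x * κ x⁻¹ := by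
      refine Finset.sum_congr rfl fun x hx => ?_
      have hx' : x ∈ C := by simpa using hx
      rw [(hQRS G N₁ C₁ h2 η hη).2 x (h1 hx'), finsum_mem_eq_finite_toFinset_sum _ hfin, Finset.sum_mul]
    rw [e1, Finset.sum_comm, Finset.sum_div]
    refine Finset.sum_congr rfl fun ψ _ => ?_
    rw [finsum_mem_eq_finite_toFinset_sum _ (Set.toFinite (C : Set G)), ← mul_div_assoc, Finset.mul_sum]
    congr 1
    refine Finset.sum_congr rfl fun x _ => ?_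
    rw [mul_assoc]
    rfl
  rw [hd θ, hd θ', finsum_mem_eq_finite_toFinset_sum _ hfin, finsum_mem_eq_finite_toFinset_sum _ hfin, ← Finset.sum_sub_distrib]
  have e2 : ∑ ψ ∈ hfin.toFinset, (mt C₁ η ψ * mt C ψ θ - mt C₁ η ψ * mt C ψ θ') =
      ∑ ψ ∈ hfin.toFinset, ((if ψ = ξ then ε * mt C₁ η ψ else 0) - (if ψ = ξ' then ε * mt C₁ η ψ else 0)) := by
    refine Finset.sum_congr rfl fun ψ hψ => ?_
    have hψ' : ψ ∈ IrrOn C₁ := by simpa using hψ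
    rw [← mul_sub, h ψ hψ']
    split_ifs <;> ring
  rw [e2, Finset.sum_sub_distrib, Finset.sum_ite_eq', Finset.sum_ite_eq', if_pos (by simpa using hξ), if_pos (by simpa using hξ')]
  ring

/-- **GQQ**. -/
theorem GQQ (hGC1 : GC1_stmt) (hGEV : GEV_stmt) (hGCL : GCL_stmt) (hGOU : GOU_stmt) (hGOB : GOB_stmt) (hZNU : ZNU_stmt)
    (hNUB : NUB_stmt) (hZGP : ZGP_stmt) (_hCJG : CJG_stmt) (_hB3 : B3_stmt) (_hB2 : B2_stmt) (hQRS : QRS_stmt) : GQQ_stmt := by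
  classical
  intro p e m t M hS G _ _ χ Z z x hZD η hη θ₁ hθ₁ θ₁' hθ₁' ho₁
  have hp := hS.pr
  have hem : m + 3 ≤ e := by have := hZD.em; omega
  have uc := hZD.uc
  obtain ⟨z1, -, -, -, z5, z6, -, -⟩ := hZGP p e m hp hem G z uc.pe uc.od
  rw [hZD.zz] at z1 z5 z6
  set E := Eg p e z with hE
  obtain ⟨ξ, ε, c1, c2, c3⟩ := hGC1 p e m t M hS G χ Z z x hZD
  have hev := hGEV p e m t M hS G χ Z z x hZD ξ ε c1 c2 c3
  have hC₁ : cz Z ≤ cz E := z5.2.2.2.1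
  have hEN : cz E ≤ nz E := ((NEG p e hp G z).2.2.2.2.1).2
  have hcardE : Nat.card E = p := by
    have h1 := ((NEG p e hp G z).2.2.2.2.2.1.2 (by omega) uc.od).2
    rw [hE]
    show Nat.card (Subgroup.zpowers (z ^ p ^ (e - 1))) = p
    rw [Nat.card_zpowers, h1]
  obtain ⟨g1, g2⟩ := hGCL p hp G E hcardE η hη.1
  -- the formula for the differences
  have hdiff : ∀ θ ∈ GS p e m M χ (cz Z) Z, ∀ θ' ∈ GS p e m M χ (cz Z) Z, orb Z t θ θ' →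
      mt (cz Z) η θ - mt (cz Z) η θ' = ε θ * (mt (cz E) η (ξ θ) - mt (cz E) η (ξ θ')) := by
    intro θ hθ θ' hθ' ho
    refine GQQ_dec hQRS hC₁ hEN hη.1 (c1 θ hθ).1.1 (c1 θ' hθ').1.1 fun ψ hψ => ?_
    by_cases hg : ψ ∈ GS p e m M χ (cz E) Z
    · exact c2 ψ hg θ hθ θ' hθ' ho
    · rw [hGOU p e m t M hS G χ Z z x hZD (cz E) hC₁ ψ hψ hg θ hθ θ' ho, if_neg, if_neg]
      · ring
      · rintro rfl
        exact hg (c1 θ' hθ').1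
      · rintro rfl
        exact hg (c1 θ hθ).1
  -- the multiplicities which are not zero
  have hone : ∀ θ ∈ GS p e m M χ (cz Z) Z, ∀ θ' ∈ GS p e m M χ (cz Z) Z, orb Z t θ θ' → mt (cz Z) η θ ≠ mt (cz Z) η θ' →
      ∃ θ₃ ∈ GS p e m M χ (cz Z) Z, orb Z t θ θ₃ ∧ mt (cz E) η (ξ θ₃) ≠ 0 := by
    intro θ hθ θ' hθ' ho hne
    by_cases h0 : mt (cz E) η (ξ θ) = 0
    · refine ⟨θ', hθ', ho, fun h1 => hne ?_⟩
      have := hdiff θ hθ θ' hθ' ho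
      rw [h0, h1, sub_self, mul_zero] at this
      exact sub_eq_zero.1 this
    · exact ⟨θ, hθ, (hGOB p e t hp G hZD.tx Z).1 θ, h0⟩
  refine ⟨?_, ?_⟩
  · rw [hdiff θ₁ hθ₁ θ₁' hθ₁' ho₁]
    rcases (c1 θ₁ hθ₁).2 with h | h <;> rcases g1 (ξ θ₁) (c1 θ₁ hθ₁).1.1 with h' | h' <;>
      rcases g1 (ξ θ₁') (c1 θ₁' hθ₁').1.1 with h'' | h'' <;> rw [h, h', h''] <;> norm_num
  · intro θ₂ hθ₂ θ₂' hθ₂' ho₂ hne₁ hne₂
    obtain ⟨θ₃, hθ₃, ho₃, hm₃⟩ := hone θ₁ hθ₁ θ₁' hθ₁' ho₁ hne₁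
    obtain ⟨θ₄, hθ₄, ho₄, hm₄⟩ := hone θ₂ hθ₂ θ₂' hθ₂' ho₂ hne₂
    obtain ⟨n, hn, en⟩ := g2 (ξ θ₃) (c1 θ₃ hθ₃).1.1 (ξ θ₄) (c1 θ₄ hθ₄).1.1 hm₃ hm₄
    obtain ⟨i₃, s₃, z₃, x₃, u₃, e₃⟩ := (c1 θ₃ hθ₃).1
    obtain ⟨i₄, s₄, z₄, x₄, u₄, e₄⟩ := (c1 θ₄ hθ₄).1
    have u₅ := (hNUB p e m M hS G (cz E) (ξ θ₃) z₃ x₃ u₃).2.1 n
    rw [GS4_cjcz hn, ← en] at u₅
    obtain ⟨c, hc, ec⟩ := (hZNU p e m M hS hZD.em G (cz E) (ξ θ₄) i₄ z₄ x₄ u₄).1 _ _ u₅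
    rw [e₄, (hZGP p e m hp hem G z₃ u₃.pe u₃.od).1 n, e₃] at ec
    have hh : c⁻¹ * n ∈ nz Z := by
      rw [Subgroup.mem_normalizer_iff]
      intro w
      have h1 : n * w * n⁻¹ ∈ cjS n Z ↔ w ∈ Z := by
        rw [mem_cjS]
        have : n⁻¹ * (n * w * n⁻¹) * n = w := by group
        rw [this]
      rw [ec, mem_cjS] at h1
      have e5 : c⁻¹ * (n * w * n⁻¹) * c = c⁻¹ * n * w * (c⁻¹ * n)⁻¹ := by group
      rw [e5] at h1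
      exact h1.symm
    set h := c⁻¹ * n with hdef
    have hhE : h ∈ nz E := z5.2.2.1 hh
    have e6 : ξ θ₄ = cjF h (ξ θ₃) := by
      have e7 : n = c * h := by rw [hdef]; group
      have i₅ : cjF h (ξ θ₃) ∈ IrrOn (cz E) := by
        have := IrrOn_funMap i₃ h
        rwa [show cj h (cz E) = cz E from GS4_cjcz hhE] at this
      rw [en, e7]
      funext y
      rw [cjF_apply, cjF_apply]
      have e8 : (c * h)⁻¹ * y * (c * h) = h⁻¹ * (c⁻¹ * y * c) * h := by group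
      have e9 := IrrOn_conj i₅ (Subgroup.inv_mem _ hc) y
      rw [inv_inv] at e9
      change cjF h (ξ θ₃) _ = cjF h (ξ θ₃) _ at e9
      rw [cjF_apply, cjF_apply] at e9
      rw [e8, e9]
    -- the conjugate of `θ₃`
    have hθ₅ : cjF h θ₃ ∈ GS p e m M χ (cz Z) Z := by
      obtain ⟨j₃, t₃, w₃, y₃, v₃, f₃⟩ := hθ₃
      refine ⟨?_, ?_, h * w₃ * h⁻¹, h * y₃ * h⁻¹, ?_, ?_⟩
      · have := IrrOn_funMap j₃ h
        rwa [show cj h (cz Z) = cz Z from GS4_cjcz hh] at this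
      · exact ((_hCJG G M p h (⊤ : Subgroup G)).2.2.2.2.2.1 (Subgroup.mem_top h) θ₃).1.trans t₃
      · have := (hNUB p e m M hS G (cz Z) θ₃ w₃ y₃ v₃).2.1 h
        rwa [GS4_cjcz hh] at this
      · rw [(hZGP p e m hp hem G w₃ v₃.pe v₃.od).1 h, f₃]
        ext y
        rw [mem_cjS]
        have h1 := (Subgroup.mem_normalizer_iff.1 ((nz Z).inv_mem hh)) y
        rw [inv_inv] at h1
        exact h1.symm
    rw [← hev h hh θ₃ hθ₃] at e6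
    obtain ⟨a, ha, ea⟩ := c3 (cjF h θ₃) hθ₅ θ₄ hθ₄ e6.symm
    have hah : a * h ∈ nz Z := (nz Z).mul_mem ha.1 hh
    refine ⟨a * h, hah, ?_⟩
    obtain ⟨b1, b2, b3, b4⟩ := hGOB p e t hp G hZD.tx Z
    have e10 : cjF (a * h) θ₃ = θ₄ := by
      rw [ea]
      exact funMap_mul ..
    have q1 := b4 (a * h) hah θ₁ θ₃ ho₃
    rw [e10] at q1
    exact b3 _ _ _ q1 (b2 _ _ ho₄)

end Pool.Agent.ND
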